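import Mathlib

set_option autoImplicit false
open Set Filter Topology

namespace Pool.Agent.H.MP_737f38_pr

/-- mass function of a sum of independent Bernoulli variables with parameters `p i` -/
def pmf {m : ℕ} (p : Fin m → ℝ) (k : ℕ) : ℝ :=
  ∑ A ∈ Finset.powersetCard k (Finset.univ : Finset (Fin m)), (∏ i ∈ A, p i) * ∏ i ∈ Aᶜ, (1 - p i)

/-- Renyi entropy of order `q` of that mass function -/
noncomputable def renyi (q : ℝ) {m : ℕ} (p : Fin m → ℝ) : ℝ :=
  1 / (1 - q) * Real.log (∑ k ∈ Finset.range (m + 1), pmf p k ^ q)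

theorem sum_two (p : Fin 2 → ℝ) (q : ℝ) : ∑ k ∈ Finset.range (2 + 1), pmf p k ^ q
    = ((1 - p 0) * (1 - p 1)) ^ q + (p 0 * (1 - p 1) + p 1 * (1 - p 0)) ^ q + (p 0 * p 1) ^ q := by
  have e1 : Finset.powersetCard 1 (Finset.univ : Finset (Fin 2)) = {{0}, {1}} := by decide
  have e2 : Finset.powersetCard 2 (Finset.univ : Finset (Fin 2)) = {Finset.univ} := by decide
  have c0 : ({0} : Finset (Fin 2))ᶜ = {1} := by decide
  have c1 : ({1} : Finset (Fin 2))ᶜ = {0} := by decide
  simp only [Finset.sum_range_succ, Finset.sum_range_zero, zero_add, pmf, Finset.powersetCard_zero,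
    e1, e2, Finset.sum_singleton]
  rw [Finset.sum_pair (by decide), c0, c1]
  simp

theorem conv_sq (F : ℝ → ℝ) (hF : ContDiffAt ℝ 2 F 0) (h : 0 < deriv F 0) :
    ∃ δ0 > 0, ∀ δ, 0 < δ → δ ≤ δ0 →
      StrictConvexOn ℝ (Icc 0 1) fun t => F ((δ * (2 * t - 1)) ^ 2) := by
  have hsq : ContDiffAt ℝ 2 (fun s : ℝ => F (s ^ 2)) 0 :=
    ContDiffAt.comp (g := F) 0 (by simpa using hF) (by fun_prop)
  have h1 : ContDiffAt ℝ 1 (deriv fun s : ℝ => F (s ^ 2)) 0 := hsq.derivWithin (by norm_num)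
  have h2 : ContinuousAt (deriv (deriv fun s : ℝ => F (s ^ 2))) 0 :=
    (h1.derivWithin (m := 0) (by norm_num)).continuousAt
  have ht : Tendsto (fun s : ℝ => s ^ 2) (𝓝 0) (𝓝 0) := by
    have : ContinuousAt (fun s : ℝ => s ^ 2) 0 := by fun_prop
    simpa [ContinuousAt] using this
  have h3 : (deriv fun s : ℝ => F (s ^ 2)) =ᶠ[𝓝 0] fun s => deriv F (s ^ 2) * (2 * s) := by
    filter_upwards [ht.eventually (hF.eventually (by simp))] with s hs
    have := HasDerivAt.comp (h := fun s : ℝ => s ^ 2) s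
      (hs.differentiableAt (by norm_num)).hasDerivAt (hasDerivAt_pow 2 s)
    exact this.deriv.trans (by simp)
  have h4 : deriv (deriv fun s : ℝ => F (s ^ 2)) 0 = deriv F 0 * 2 := by
    rw [h3.deriv_eq]
    have a : DifferentiableAt ℝ (fun s : ℝ => deriv F (s ^ 2)) 0 :=
      DifferentiableAt.comp (g := deriv F) 0 (by
        simpa using (hF.derivWithin (m := 1) (by norm_num)).differentiableAt (by norm_num))
        (by fun_prop)
    have := a.hasDerivAt.mul ((hasDerivAt_id (0 : ℝ)).const_mul 2)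
    exact this.deriv.trans (by simp)
  have h5 : ∀ᶠ s in 𝓝 (0 : ℝ), 0 < deriv (deriv fun s : ℝ => F (s ^ 2)) s :=
    h2.eventually (lt_mem_nhds (by rw [h4]; linarith))
  obtain ⟨ε, hε, h6⟩ := Metric.eventually_nhds_iff.mp (h5.and (hsq.eventually (by simp)))
  refine ⟨ε / 2, by linarith, fun δ h0 hδ => ?_⟩
  have key : StrictConvexOn ℝ (Icc (-δ) δ) fun s : ℝ => F (s ^ 2) := by
    have m : ∀ s ∈ Icc (-δ) δ, dist s 0 < ε := fun s hs => by
      rw [Real.dist_eq, sub_zero, abs_lt]; constructor <;> linarith [hs.1, hs.2]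
    refine strictConvexOn_of_deriv2_pos (convex_Icc _ _)
      (fun s hs => (h6 (m s hs)).2.continuousAt.continuousWithinAt) fun s hs => ?_
    exact (h6 (m s (interior_subset hs))).1
  refine ⟨convex_Icc _ _, fun x hx y hy hxy a b ha hb hab => ?_⟩
  have m : ∀ t ∈ Icc (0 : ℝ) 1, δ * (2 * t - 1) ∈ Icc (-δ) δ := fun t ht =>
    ⟨by nlinarith [ht.1], by nlinarith [ht.2]⟩
  have := key.2 (m x hx) (m y hy) (fun e => hxy (by
    have := mul_left_cancel₀ h0.ne' e
    linarith)) ha hb hab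
  simp only [smul_eq_mul] at this ⊢
  convert this using 3
  linear_combination δ * hab

end Pool.Agent.H.MP_737f38_pr
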